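import Pool.Agent.K3h21.PP.QComb

/-!
For every `n > 10` the difference between the number of partitions of `n` with an even number of
missing integers and the number of partitions of `n` with an odd number of missing integers is
smaller than the number of partitions of `n` into distinct parts.
-/

namespace Pool.Agent.Results.MP_781ce4_nt.DistinctBias

/-- The number of missing integers of a partition: positive integers `k` smaller than the largest
part which do not occur as a part. -/
def missing {n : ℕ} (p : n.Partition) : ℕ :=
  ((Finset.range p.parts.sup).filter (fun k => 1 ≤ k ∧ k ∉ p.parts)).card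

/-- Number of partitions of `n` with an even number of missing integers. -/
def Me (n : ℕ) : ℕ := (Finset.univ.filter (fun p : n.Partition => Even (missing p))).card

/-- Number of partitions of `n` with an odd number of missing integers. -/
def Mo (n : ℕ) : ℕ := (Finset.univ.filter (fun p : n.Partition => Odd (missing p))).card

lemma diff_eq (n : ℕ) : (Me n : ℤ) - Mo n = K3h21.PP.sgn n := by
  unfold Me Mo K3h21.PP.sgn
  rw [Finset.card_filter, Finset.card_filter]
  push_cast
  rw [← Finset.sum_sub_distrib]
  apply Finset.sum_congr rfl
  intro p _
  have h : missing p = K3h21.PP.missing p := rfl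
  rcases Nat.even_or_odd (missing p) with he | ho
  · rw [if_pos he, if_neg (Nat.not_odd_iff_even.2 he), ← h, he.neg_one_pow]; ring
  · rw [if_neg (Nat.not_even_iff_odd.2 ho), if_pos ho, ← h, ho.neg_one_pow]; ring

/-- For all `n > 10` the difference of the two counts is smaller than the number of partitions of
`n` into distinct parts. -/
theorem result : ∀ n : ℕ, 10 < n →
    (Me n : ℤ) - (Mo n : ℤ) < ((Nat.Partition.distincts n).card : ℤ) := by
  intro n hn
  rw [diff_eq n, K3h21.PP.sgn_eq_coeff, K3h21.PQ.card_distincts]
  exact K3h21.PQ.A_lt_D hn

end Pool.Agent.Results.MP_781ce4_nt.DistinctBias
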